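import Mathlib

/-!
Stable facets and monostatic simplices of uniform density.
-/

namespace Pool.Agent.Helper82.Mono

variable {V : Type*} [NormedAddCommGroup V] [InnerProductSpace ℝ V] {n : ℕ} [NeZero n]

/-- The facet of the `n`-simplex `S` opposite to the vertex number `i`, as a set of points: the
convex hull of the other `n` vertices. -/
def facet (S : Affine.Simplex ℝ V n) (i : Fin (n + 1)) : Set V :=
  convexHull ℝ (Set.range (S.faceOpposite i).points)

/-- The orthogonal projection of the centroid of `S` (its centre of mass for uniform density, the
average of the vertices) onto the affine span of the facet opposite to the vertex number `i`. -/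
noncomputable def foot (S : Affine.Simplex ℝ V n) (i : Fin (n + 1)) : V :=
  (S.faceOpposite i).orthogonalProjectionSpan S.centroid

/-- The facet opposite to the vertex number `i` is *stable*: the orthogonal projection of the
centroid onto its affine span lies in the relative interior of the facet. -/
def FacetStable (S : Affine.Simplex ℝ V n) (i : Fin (n + 1)) : Prop :=
  foot S i ∈ intrinsicInterior ℝ (facet S i)

/-- The simplex `S` is *monostatic* if exactly one of its `n + 1` facets is stable. -/
def Monostatic (S : Affine.Simplex ℝ V n) : Prop :=
  ∃! i : Fin (n + 1), FacetStable S i

end Pool.Agent.Helper82.Mono
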