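import Pool.Agent.Helper82.MonoMain

/-!
An explicit monostatic simplex in every dimension at least ten.
-/

namespace Pool.Agent.Helper82.Mono

open scoped RealInnerProductSpace
open Set

/-- first coordinates (the number `h` is used from the tenth vector on) -/
def ca (h : ℝ) : ℕ → ℝ
  | 0 => 9
  | 1 => 9
  | 2 => -2
  | 3 => -2
  | 4 => -7
  | 5 => -7
  | 6 => -8
  | 7 => -8
  | 8 => -8
  | 9 => -8
  | _ + 10 => h

/-- second coordinates -/
def cb : ℕ → ℝ
  | 0 => 14
  | 1 => -14
  | 2 => 12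
  | 3 => -12
  | 4 => 6
  | 5 => -6
  | 6 => 3
  | 7 => 3
  | 8 => -3
  | 9 => -3
  | _ + 10 => 0

/-- own coordinates -/
def cc (h : ℝ) : ℕ → ℝ
  | 0 => 0
  | 1 => 0
  | 2 => 1
  | 3 => 1
  | 4 => 1
  | 5 => 1
  | 6 => 1
  | 7 => 1
  | 8 => 1
  | 9 => 1
  | _ + 10 => h

variable {n : ℕ}

/-- unit vectors -/
noncomputable def ee (i : Fin n) : EuclideanSpace ℝ (Fin n) := EuclideanSpace.single i 1

theorem inner_ee (i j : Fin n) : ⟪ee i, ee j⟫ = if i = j then (1 : ℝ) else 0 := by
  rw [ee, ee, EuclideanSpace.inner_single_left, PiLp.single_apply]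
  simp

/-- planar part -/
noncomputable def PP (hn : 10 ≤ n) (h : ℝ) (i : Fin n) : EuclideanSpace ℝ (Fin n) :=
  ca h i • ee ⟨0, by omega⟩ + cb i • ee ⟨1, by omega⟩

/-- perpendicular part -/
noncomputable def QQ (h : ℝ) (i : Fin n) : EuclideanSpace ℝ (Fin n) := cc h i • ee i

/-- the gradients other than the longest one -/
noncomputable def W (hn : 10 ≤ n) (h : ℝ) (i : Fin n) : EuclideanSpace ℝ (Fin n) :=
  PP hn h i + QQ h i

theorem inner_PP (hn : 10 ≤ n) (h : ℝ) (i j : Fin n) :
    ⟪PP hn h i, PP hn h j⟫ = ca h i * ca h j + cb i * cb j := by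
  simp only [PP, inner_add_left, inner_add_right, inner_smul_left, inner_smul_right, inner_ee,
    conj_trivial]
  simp
  ring

theorem inner_QQ (h : ℝ) (i j : Fin n) :
    ⟪QQ h i, QQ h j⟫ = if i = j then cc h i * cc h j else 0 := by
  simp only [QQ, inner_smul_left, inner_smul_right, inner_ee, conj_trivial]
  split_ifs <;> ring

theorem inner_PQ (hn : 10 ≤ n) (h : ℝ) (i j : Fin n) : ⟪PP hn h i, QQ h j⟫ = 0 := by
  by_cases hj : (j : ℕ) < 2
  · have : cc h j = 0 := by
      obtain ⟨j, hj'⟩ := j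
      simp only at hj ⊢
      interval_cases j <;> rfl
    simp [QQ, this]
  · have h0 : (⟨0, by omega⟩ : Fin n) ≠ j := by
      intro hc; rw [← hc] at hj; simp at hj
    have h1 : (⟨1, by omega⟩ : Fin n) ≠ j := by
      intro hc; rw [← hc] at hj; simp at hj
    simp only [PP, QQ, inner_add_left, inner_smul_left, inner_smul_right, inner_ee, h0, h1,
      if_false, mul_zero, add_zero]

theorem inner_W (hn : 10 ≤ n) (h : ℝ) (i j : Fin n) :
    ⟪W hn h i, W hn h j⟫ = ca h i * ca h j + cb i * cb j +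
      if i = j then cc h i * cc h j else 0 := by
  rw [W, W, inner_add_left, inner_add_right, inner_add_right, inner_PP, inner_QQ, inner_PQ,
    real_inner_comm, inner_PQ]
  ring

theorem sum_ca (k : ℕ) (h : ℝ) : ∑ i ∈ Finset.range (k + 10), ca h i = -32 + k * h := by
  induction k with
  | zero => simp [Finset.sum_range_succ, ca]; norm_num
  | succ k ih =>
    rw [show k + 1 + 10 = (k + 10) + 1 by ring, Finset.sum_range_succ, ih]
    simp only [ca]
    push_cast
    ring

theorem sum_cb (k : ℕ) : ∑ i ∈ Finset.range (k + 10), cb i = 0 := by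
  induction k with
  | zero => simp [Finset.sum_range_succ, cb]
  | succ k ih =>
    rw [show k + 1 + 10 = (k + 10) + 1 by ring, Finset.sum_range_succ, ih]
    simp only [cb]
    ring

theorem inner_W_sum (hn : 10 ≤ n) (h : ℝ) (i : Fin n) :
    ⟪W hn h i, ∑ j, W hn h j⟫ = ca h i * (-32 + ((n : ℝ) - 10) * h) + cc h i * cc h i := by
  rw [inner_sum]
  simp only [inner_W, Finset.sum_add_distrib]
  rw [← Finset.mul_sum, ← Finset.mul_sum, Fin.sum_univ_eq_sum_range (fun i => ca h i) n,
    Fin.sum_univ_eq_sum_range (fun i => cb i) n]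
  obtain ⟨k, rfl⟩ : ∃ k, n = k + 10 := ⟨n - 10, by omega⟩
  rw [sum_ca, sum_cb]
  simp

theorem linearIndependent_W (hn : 10 ≤ n) (h : ℝ) (hh : h ≠ 0) :
    LinearIndependent ℝ (W hn h) := by
  rw [Fintype.linearIndependent_iff]
  intro g hg
  have hpair : ∀ v : EuclideanSpace ℝ (Fin n), ∑ i, g i * ⟪v, W hn h i⟫ = 0 := by
    intro v
    have : ⟪v, ∑ i, g i • W hn h i⟫ = 0 := by rw [hg, inner_zero_right]
    rw [inner_sum] at this
    simpa only [inner_smul_right] using this
  have hQ : ∀ j i : Fin n, ⟪QQ h j, W hn h i⟫ = if j = i then cc h j * cc h i else 0 := by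
    intro j i
    rw [W, inner_add_right, inner_QQ, real_inner_comm, inner_PQ, zero_add]
  have hcc : ∀ j : Fin n, 2 ≤ (j : ℕ) → cc h j ≠ 0 := by
    intro j hj
    obtain ⟨j, hj'⟩ := j
    simp only at hj ⊢
    by_cases hj10 : j < 10
    · interval_cases j <;> simp [cc]
    · obtain ⟨m, rfl⟩ : ∃ m, j = m + 10 := ⟨j - 10, by omega⟩
      simpa [cc] using hh
  have h2 : ∀ j : Fin n, 2 ≤ (j : ℕ) → g j = 0 := by
    intro j hj
    have h3 := hpair (QQ h j)
    simp only [hQ] at h3
    rw [Finset.sum_eq_single j] at h3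
    · simpa [hcc j hj] using h3
    · intro b _ hb
      rw [if_neg (Ne.symm hb), mul_zero]
    · simp
  have hz : (⟨0, by omega⟩ : Fin n) ≠ ⟨1, by omega⟩ := by simp
  have hsum2 : ∀ f : Fin n → ℝ, ∑ i, g i * f i =
      g ⟨0, by omega⟩ * f ⟨0, by omega⟩ + g ⟨1, by omega⟩ * f ⟨1, by omega⟩ := by
    intro f
    rw [← Finset.sum_subset (Finset.subset_univ {(⟨0, by omega⟩ : Fin n), ⟨1, by omega⟩})]
    · rw [Finset.sum_pair hz]
    · intro x _ hx
      have : 2 ≤ (x : ℕ) := by
        by_contra hcon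
        push Not at hcon
        apply hx
        simp only [Finset.mem_insert, Finset.mem_singleton, Fin.ext_iff]
        omega
      rw [h2 x this, zero_mul]
  have ha := hpair (ee ⟨0, by omega⟩)
  have hb := hpair (ee ⟨1, by omega⟩)
  rw [hsum2] at ha hb
  have w0 : W hn h ⟨0, by omega⟩ = (9 : ℝ) • ee ⟨0, by omega⟩ + (14 : ℝ) • ee ⟨1, by omega⟩ := by
    simp [W, PP, QQ, ca, cb, cc]
  have w1 : W hn h ⟨1, by omega⟩ = (9 : ℝ) • ee ⟨0, by omega⟩ + (-14 : ℝ) • ee ⟨1, by omega⟩ := by
    simp [W, PP, QQ, ca, cb, cc]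
  rw [w0, w1] at ha hb
  simp only [inner_add_right, inner_smul_right, inner_ee, if_true, hz, hz.symm, if_false] at ha hb
  have g0 : g ⟨0, by omega⟩ = 0 := by linarith
  have g1 : g ⟨1, by omega⟩ = 0 := by linarith
  intro i
  by_cases hi : 2 ≤ (i : ℕ)
  · exact h2 i hi
  · have : i = ⟨0, by omega⟩ ∨ i = ⟨1, by omega⟩ := by
      simp only [Fin.ext_iff]; omega
    rcases this with hc | hc
    · rw [hc]; exact g0
    · rw [hc]; exact g1

theorem exists_monostatic [NeZero n] (hn : 10 ≤ n) :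
    ∃ S : Affine.Simplex ℝ (EuclideanSpace ℝ (Fin n)) n, Monostatic S := by
  set h : ℝ := (n : ℝ)⁻¹ with hh
  have hnpos : (0 : ℝ) < n := by
    have : 0 < n := by omega
    exact_mod_cast this
  have hnR : (10 : ℝ) ≤ n := by exact_mod_cast hn
  have hpos : 0 < h := by positivity
  have hnh : (n : ℝ) * h = 1 := by rw [hh]; field_simp
  have hh1 : h ≤ 1 / 10 := by
    rw [hh, inv_le_comm₀ hnpos (by norm_num)]
    norm_num
    exact hn
  set s : EuclideanSpace ℝ (Fin n) := ∑ j, W hn h j with hs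
  let w : Fin (n + 1) → EuclideanSpace ℝ (Fin n) := Fin.cons (-s) (W hn h)
  have hw0 : w 0 = -s := rfl
  have hws : ∀ i : Fin n, w i.succ = W hn h i := fun i => rfl
  obtain ⟨S, hS⟩ := exists_simplex w (by
    rw [Fin.sum_univ_succ, hw0]
    simp only [hws]
    rw [← hs, neg_add_cancel]) (by
    simp only [hws]
    exact linearIndependent_W hn h hpos.ne')
  have hA : ((n : ℝ) - 10) * h = 1 - 10 * h := by rw [sub_mul, hnh]
  have hWs : ∀ i : Fin n, ⟪W hn h i, s⟫ = ca h i * (-31 - 10 * h) + cc h i * cc h i := by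
    intro i
    rw [hs, inner_W_sum, hA]
    ring
  refine ⟨S, 0, ?_, ?_⟩
  · -- the facet 0 is stable
    show FacetStable S 0
    rw [facetStable_iff]
    intro j hj
    rw [hS, hS, hw0]
    obtain ⟨i, rfl⟩ := Fin.exists_succ_eq.2 hj
    rw [hws, inner_neg_left, real_inner_comm, hWs, inner_neg_left, inner_neg_right, neg_neg]
    -- lower bound for the square of the sum
    have hss : ⟪s, s⟫ = ∑ j : Fin n, (ca h j * (-31 - 10 * h) + cc h j * cc h j) := by
      conv_lhs => rw [hs]
      rw [← hs, sum_inner]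
      exact Finset.sum_congr rfl fun j _ => hWs j
    have hss2 : (32 - 1) * 31 ≤ ⟪s, s⟫ := by
      rw [hss, Finset.sum_add_distrib, ← Finset.sum_mul,
        Fin.sum_univ_eq_sum_range (fun i => ca h i) n]
      have h1 : 0 ≤ ∑ j : Fin n, cc h j * cc h j :=
        Finset.sum_nonneg fun j _ => mul_self_nonneg _
      have h2 : ∑ i ∈ Finset.range n, ca h i = -31 - 10 * h := by
        obtain ⟨k, rfl⟩ : ∃ k, n = k + 10 := ⟨n - 10, by omega⟩
        rw [sum_ca]
        push_cast at hA
        linarith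
      rw [h2]
      nlinarith
    have hca : ca h i ≤ 9 := by
      obtain ⟨i, hi⟩ := i
      simp only
      by_cases hi10 : i < 10
      · interval_cases i <;> simp [ca] <;> norm_num
      · obtain ⟨m, rfl⟩ : ∃ m, i = m + 10 := ⟨i - 10, by omega⟩
        simp only [ca]; linarith
    have hcc : 0 ≤ cc h i * cc h i := mul_self_nonneg _
    nlinarith
  · -- the other facets are unstable
    intro y hy
    change FacetStable S y at hy
    by_contra hne
    obtain ⟨i, rfl⟩ := Fin.exists_succ_eq.2 hne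
    rw [facetStable_iff] at hy
    simp only [hS] at hy
    have hroot : ∀ i : Fin n, (∀ j, j ≠ i.succ → ⟪w i.succ, w j⟫ < ⟪w i.succ, w i.succ⟫) →
        ca h i * ca h i + cb i * cb i + cc h i * cc h i ≤
          ca h i * (31 + 10 * h) - cc h i * cc h i → False := by
      intro i hy hle
      have := hy 0 (Fin.succ_ne_zero i).symm
      rw [hw0, hws, inner_neg_right, hWs, inner_W, if_pos rfl] at this
      linarith
    have hother : ∀ i j : Fin n, j ≠ i →
        (∀ j, j ≠ i.succ → ⟪w i.succ, w j⟫ < ⟪w i.succ, w i.succ⟫) →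
        ca h i * ca h i + cb i * cb i + cc h i * cc h i ≤
          ca h i * ca h j + cb i * cb j → False := by
      intro i j hji hy hle
      have := hy j.succ (fun hc => hji (Fin.succ_injective _ hc))
      rw [hws, hws, inner_W, inner_W, if_pos rfl, if_neg (Ne.symm hji)] at this
      linarith
    obtain ⟨i, hi⟩ := i
    by_cases hi10 : i < 10
    · interval_cases i
      · refine hroot ⟨0, hi⟩ hy ?_
        simp only [ca, cb, cc]; linarith
      · refine hroot ⟨1, hi⟩ hy ?_
        simp only [ca, cb, cc]; linarith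
      · refine hother ⟨2, hi⟩ ⟨0, by omega⟩ (by simp) hy ?_
        simp only [ca, cb, cc]; norm_num
      · refine hother ⟨3, hi⟩ ⟨1, by omega⟩ (by simp) hy ?_
        simp only [ca, cb, cc]; norm_num
      · refine hother ⟨4, hi⟩ ⟨2, by omega⟩ (by simp) hy ?_
        simp only [ca, cb, cc]; norm_num
      · refine hother ⟨5, hi⟩ ⟨3, by omega⟩ (by simp) hy ?_
        simp only [ca, cb, cc]; norm_num
      · refine hother ⟨6, hi⟩ ⟨4, by omega⟩ (by simp) hy ?_
        simp only [ca, cb, cc]; norm_num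
      · refine hother ⟨7, hi⟩ ⟨4, by omega⟩ (by simp) hy ?_
        simp only [ca, cb, cc]; norm_num
      · refine hother ⟨8, hi⟩ ⟨5, by omega⟩ (by simp) hy ?_
        simp only [ca, cb, cc]; norm_num
      · refine hother ⟨9, hi⟩ ⟨5, by omega⟩ (by simp) hy ?_
        simp only [ca, cb, cc]; norm_num
    · obtain ⟨m, rfl⟩ : ∃ m, i = m + 10 := ⟨i - 10, by omega⟩
      refine hroot ⟨m + 10, hi⟩ hy ?_
      simp only [ca, cb, cc]
      nlinarith

end Pool.Agent.Helper82.Mono
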