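import Pool.Agent.Helper82.MonoTable

/-!
At most ten vectors with zero sum, all but one of which fall onto another one, do not exist.
-/

namespace Pool.Agent.Helper82.Mono

open scoped RealInnerProductSpace

variable {E : Type} [NormedAddCommGroup E] [InnerProductSpace ℝ E]

/-- a new vector can be inserted as a child of any node -/
theorem insert_vf : ∀ (f : VF E) (y v x : E), f.falls y → (v = y ∨ v ∈ f.toMultiset) →
    ⟪x, x⟫ ≤ ⟪x, v⟫ → ∃ f' : VF E, f'.falls y ∧ f'.toMultiset = x ::ₘ f.toMultiset := by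
  intro f
  induction f with
  | nil =>
    intro y v x _ hv hx
    have hvy : v = y := by simpa [VF.toMultiset] using hv
    subst hvy
    exact ⟨.cons x .nil .nil, ⟨hx, trivial, trivial⟩, by simp [VF.toMultiset]⟩
  | cons z c r ihc ihr =>
    intro y v x hf hv hx
    rcases hv with rfl | hv
    · exact ⟨.cons x .nil (.cons z c r), ⟨hx, trivial, hf⟩, by simp [VF.toMultiset]⟩
    · obtain ⟨h1, h2, h3⟩ := hf
      rw [VF.toMultiset, Multiset.mem_cons, Multiset.mem_add] at hv
      rcases hv with rfl | hv | hv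
      · obtain ⟨c', hc', hm⟩ := ihc v v x h2 (Or.inl rfl) hx
        refine ⟨.cons v c' r, ⟨h1, hc', h3⟩, ?_⟩
        simp only [VF.toMultiset, hm, Multiset.cons_add]
        rw [Multiset.cons_swap]
      · obtain ⟨c', hc', hm⟩ := ihc z v x h2 (Or.inr hv) hx
        refine ⟨.cons z c' r, ⟨h1, hc', h3⟩, ?_⟩
        simp only [VF.toMultiset, hm, Multiset.cons_add]
        rw [Multiset.cons_swap]
      · obtain ⟨r', hr', hm⟩ := ihr y v x h3 (Or.inr hv) hx
        refine ⟨.cons z c r', ⟨h1, h2, hr'⟩, ?_⟩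
        simp only [VF.toMultiset, hm, Multiset.add_cons]
        rw [Multiset.cons_swap]

theorem exists_vf {ι : Type} [DecidableEq ι] (w : ι → E) (i₀ : ι) : ∀ (n : ℕ) (t : Finset ι),
    t.card = n →
    (∀ i ∈ t, ∃ j ∈ insert i₀ t, ‖w i‖ < ‖w j‖ ∧ ⟪w i, w i⟫ ≤ ⟪w i, w j⟫) →
    ∃ f : VF E, f.falls (w i₀) ∧ f.toMultiset = t.val.map w := by
  intro n
  induction n with
  | zero =>
    intro t ht _
    rw [Finset.card_eq_zero] at ht
    subst ht
    exact ⟨.nil, trivial, by simp [VF.toMultiset]⟩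
  | succ n ih =>
    intro t ht h
    have hne : t.Nonempty := by
      rw [← Finset.card_pos]; omega
    obtain ⟨m, hm, hmin⟩ := Finset.exists_min_image t (fun i => ‖w i‖) hne
    have hcard : (t.erase m).card = n := by
      rw [Finset.card_erase_of_mem hm]; omega
    obtain ⟨f, hf, hfm⟩ := ih (t.erase m) hcard (by
      intro i hi
      rw [Finset.mem_erase] at hi
      obtain ⟨j, hj, hlt, hle⟩ := h i hi.2
      refine ⟨j, ?_, hlt, hle⟩
      have hjm : j ≠ m := by
        rintro rfl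
        exact absurd (hmin i hi.2) (not_le.2 hlt)
      rw [Finset.mem_insert] at hj ⊢
      rcases hj with hj | hj
      · exact Or.inl hj
      · exact Or.inr (Finset.mem_erase.2 ⟨hjm, hj⟩))
    obtain ⟨j, hj, hlt, hle⟩ := h m hm
    have hjm : j ≠ m := by
      rintro rfl
      exact lt_irrefl _ hlt
    have hmem : w j = w i₀ ∨ w j ∈ f.toMultiset := by
      rw [Finset.mem_insert] at hj
      rcases hj with hj | hj
      · exact Or.inl (by rw [hj])
      · refine Or.inr ?_
        rw [hfm]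
        exact Multiset.mem_map_of_mem w (Finset.mem_erase.2 ⟨hjm, hj⟩)
    obtain ⟨f', hf', hfm'⟩ := insert_vf f (w i₀) (w j) (w m) hf hmem hle
    refine ⟨f', hf', ?_⟩
    rw [hfm', hfm, ← Multiset.map_cons, Finset.erase_val]
    congr 1
    exact Multiset.cons_erase hm

theorem insert_sorted : ∀ (r : VF E) (x : E) (c : VF E) (y : E), ⟪x, x⟫ ≤ ⟪x, y⟫ →
    c.falls x → r.falls y → c.shape.sorted = true → r.shape.sorted = true →
    ∃ f : VF E, f.falls y ∧ f.toMultiset = x ::ₘ (c.toMultiset + r.toMultiset) ∧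
      f.shape.sorted = true ∧ Shape.hd f.shape ≤ max (Shape.code c.shape) (Shape.hd r.shape) := by
  intro r
  induction r with
  | nil =>
    intro x c y h1 h2 _ h4 _
    exact ⟨.cons x c .nil, ⟨h1, h2, trivial⟩, by simp [VF.toMultiset],
      by simp [VF.shape, Shape.sorted, h4, Shape.hd], by simp [VF.shape, Shape.hd]⟩
  | cons z c₂ r₂ _ ih =>
    intro x c y h1 h2 h3 h4 h5
    by_cases hle : Shape.code c₂.shape ≤ Shape.code c.shape
    · refine ⟨.cons x c (.cons z c₂ r₂), ⟨h1, h2, h3⟩, rfl, ?_, ?_⟩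
      · simp only [VF.shape, Shape.sorted, Bool.and_eq_true] at h5 ⊢
        refine ⟨⟨h4, h5⟩, ?_⟩
        simpa [Shape.hd] using hle
      · simp [VF.shape, Shape.hd]
    · push Not at hle
      obtain ⟨g1, g2, g3⟩ := h3
      simp only [VF.shape, Shape.sorted, Bool.and_eq_true] at h5
      obtain ⟨⟨h51, h52⟩, h53⟩ := h5
      obtain ⟨f, hf1, hf2, hf3, hf4⟩ := ih x c y h1 h2 g3 h4 h52
      refine ⟨.cons z c₂ f, ⟨g1, g2, hf1⟩, ?_, ?_, ?_⟩
      · simp only [VF.toMultiset, hf2, Multiset.add_cons]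
        rw [Multiset.cons_swap]
        congr 2
        rw [← add_assoc, ← add_assoc, add_comm c₂.toMultiset]
      · simp only [VF.shape, Shape.sorted, Bool.and_eq_true]
        refine ⟨⟨h51, hf3⟩, ?_⟩
        rw [Nat.ble_eq] at h53 ⊢
        exact hf4.trans (max_le hle.le h53)
      · simp [VF.shape, Shape.hd]

theorem exists_sorted : ∀ (f : VF E) (y : E), f.falls y →
    ∃ f' : VF E, f'.falls y ∧ f'.toMultiset = f.toMultiset ∧ f'.shape.sorted = true := by
  intro f
  induction f with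
  | nil => intro y _; exact ⟨.nil, trivial, rfl, rfl⟩
  | cons x c r ihc ihr =>
    intro y h
    obtain ⟨h1, h2, h3⟩ := h
    obtain ⟨c', hc1, hc2, hc3⟩ := ihc x h2
    obtain ⟨r', hr1, hr2, hr3⟩ := ihr y h3
    obtain ⟨f', hf1, hf2, hf3, _⟩ := insert_sorted r' x c' y h1 hc1 hr1 hc3 hr3
    exact ⟨f', hf1, by rw [hf2, hc2, hr2]; rfl, hf3⟩

theorem exists_pad (f : VF E) (y : E) (h : f.falls y) : ∀ m : ℕ,
    ∃ f' : VF E, f'.falls y ∧ f'.toMultiset = Multiset.replicate m 0 + f.toMultiset := by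
  intro m
  induction m with
  | zero => exact ⟨f, h, by simp⟩
  | succ m ih =>
    obtain ⟨f', h1, h2⟩ := ih
    refine ⟨.cons 0 .nil f', ⟨by simp, trivial, h1⟩, ?_⟩
    simp [VF.toMultiset, h2, Multiset.replicate_succ]

/-- **Key non-existence statement.** If `w i₀` and at most nine further vectors have sum zero and
each of the further vectors falls onto a longer one, then `w i₀ = 0`. -/
theorem no_falling {ι : Type} [DecidableEq ι] (w : ι → E) (i₀ : ι) (t : Finset ι)
    (ht : t.card ≤ 9)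
    (hfall : ∀ i ∈ t, ∃ j ∈ insert i₀ t, ‖w i‖ < ‖w j‖ ∧ ⟪w i, w i⟫ ≤ ⟪w i, w j⟫)
    (hsum : w i₀ + ∑ i ∈ t, w i = 0) : w i₀ = 0 := by
  obtain ⟨f₁, h1, hm1⟩ := exists_vf w i₀ t.card t rfl hfall
  obtain ⟨f₂, h2, hm2⟩ := exists_pad f₁ (w i₀) h1 (9 - t.card)
  obtain ⟨f₃, h3, hm3, hs3⟩ := exists_sorted f₂ (w i₀) h2
  have hcard : f₃.shape.size = 9 := by
    rw [← VF.card_toMultiset, hm3, hm2, hm1]
    simp
    omega
  obtain ⟨g, hg1, hg2⟩ := cert_exists f₃.shape hcard hs3
  refine checkLF_sound g f₃ (w i₀) hg1 hg2 h3 ?_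
  rw [← VF.sum_toMultiset, hm3, hm2, hm1]
  simpa using hsum

end Pool.Agent.Helper82.Mono
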