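import Pool.Agent.Helper82.MonoDefs

/-!
Stability of a facet in terms of the gradients of the barycentric coordinates.
-/

namespace Pool.Agent.Helper82.Mono

open scoped RealInnerProductSpace
open Set

variable {n : ℕ}

/-- the vertices of a full-dimensional simplex as an affine basis -/
noncomputable def affB (S : Affine.Simplex ℝ (EuclideanSpace ℝ (Fin n)) n) :
    AffineBasis (Fin (n + 1)) ℝ (EuclideanSpace ℝ (Fin n)) where
  toFun := S.points
  ind' := S.independent
  tot' := by
    rw [S.independent.affineSpan_eq_top_iff_card_eq_finrank_add_one]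
    simp

@[simp] theorem affB_apply (S : Affine.Simplex ℝ (EuclideanSpace ℝ (Fin n)) n) (i : Fin (n + 1)) :
    affB S i = S.points i := rfl

/-- gradient of the `i`-th barycentric coordinate -/
noncomputable def grad (S : Affine.Simplex ℝ (EuclideanSpace ℝ (Fin n)) n) (i : Fin (n + 1)) :
    EuclideanSpace ℝ (Fin n) :=
  (InnerProductSpace.toDual ℝ (EuclideanSpace ℝ (Fin n))).symm
    (LinearMap.toContinuousLinearMap ((affB S).coord i).linear)

theorem inner_grad (S : Affine.Simplex ℝ (EuclideanSpace ℝ (Fin n)) n) (i : Fin (n + 1))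
    (v : EuclideanSpace ℝ (Fin n)) : ⟪grad S i, v⟫ = ((affB S).coord i).linear v := by
  rw [grad, InnerProductSpace.toDual_symm_apply]
  rfl

theorem coord_add (S : Affine.Simplex ℝ (EuclideanSpace ℝ (Fin n)) n) (i : Fin (n + 1))
    (x v : EuclideanSpace ℝ (Fin n)) :
    (affB S).coord i (x + v) = (affB S).coord i x + ⟪grad S i, v⟫ := by
  rw [inner_grad]
  have := ((affB S).coord i).map_vadd x v
  rw [vadd_eq_add, vadd_eq_add, add_comm v x] at this
  rw [this, add_comm]

theorem sum_grad (S : Affine.Simplex ℝ (EuclideanSpace ℝ (Fin n)) n) :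
    ∑ i, grad S i = 0 := by
  refine ext_inner_right ℝ fun v => ?_
  rw [sum_inner, inner_zero_left]
  have h1 := (affB S).sum_coord_apply_eq_one v
  have h2 := (affB S).sum_coord_apply_eq_one 0
  have h3 : ∀ i, (affB S).coord i v = (affB S).coord i 0 + ⟪grad S i, v⟫ := by
    intro i
    rw [← coord_add, zero_add]
  simp only [h3, Finset.sum_add_distrib, h2] at h1
  linarith

theorem grad_ne_zero [NeZero n] (S : Affine.Simplex ℝ (EuclideanSpace ℝ (Fin n)) n)
    (i : Fin (n + 1)) : grad S i ≠ 0 := by
  intro h
  have : Nontrivial (Fin (n + 1)) := Fin.nontrivial_iff_two_le.2 (by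
    have := NeZero.ne n; omega)
  obtain ⟨j, hj⟩ := exists_ne i
  have h1 := (affB S).coord_apply_eq i
  have h2 := (affB S).coord_apply_ne (i := i) (j := j) hj.symm
  have h3 := coord_add S i (affB S j) (affB S i - affB S j)
  rw [h, inner_zero_left, add_sub_cancel, h1, h2] at h3
  norm_num at h3

theorem coord_centroid (S : Affine.Simplex ℝ (EuclideanSpace ℝ (Fin n)) n) (i : Fin (n + 1)) :
    (affB S).coord i S.centroid = ((n : ℝ) + 1)⁻¹ := by
  have := (affB S).coord_apply_centroid (s := Finset.univ) (i := i) (Finset.mem_univ i)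
  have h2 : (affB S : Fin (n + 1) → EuclideanSpace ℝ (Fin n)) = S.points := rfl
  rw [h2] at this
  rw [this]
  simp

section facet

variable [NeZero n] (S : Affine.Simplex ℝ (EuclideanSpace ℝ (Fin n)) n) (i : Fin (n + 1))

theorem mem_span_facet (x : EuclideanSpace ℝ (Fin n)) :
    x ∈ affineSpan ℝ (range (S.faceOpposite i).points) ↔ (affB S).coord i x = 0 := by
  have h := Affine.Simplex.affineCombination_mem_affineSpan_faceOpposite_iff (s := S)
    (w := fun j => (affB S).coord j x) ((affB S).sum_coord_apply_eq_one x) (i := i)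
  have h2 : (Finset.univ.affineCombination ℝ S.points) (fun j => (affB S).coord j x) = x :=
    (affB S).affineCombination_coord_eq_self x
  rwa [h2] at h

theorem mem_hull_facet (x : EuclideanSpace ℝ (Fin n)) :
    x ∈ convexHull ℝ (range (S.faceOpposite i).points) ↔
      (affB S).coord i x = 0 ∧ ∀ j, 0 ≤ (affB S).coord j x := by
  rw [Affine.Simplex.convexHull_eq_closedInterior]
  have h2 : (Finset.univ.affineCombination ℝ S.points) (fun j => (affB S).coord j x) = x :=
    (affB S).affineCombination_coord_eq_self x
  have h := S.affineCombination_mem_closedInterior_face_iff_nonneg (fs := {i}ᶜ) (m := n - 1)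
    (by
      have := NeZero.ne n
      simp [Finset.card_compl]
      omega)
    (w := fun j => (affB S).coord j x) ((affB S).sum_coord_apply_eq_one x)
  rw [h2] at h
  rw [Affine.Simplex.faceOpposite, h]
  constructor
  · rintro ⟨h1, h2⟩
    have hi : (affB S).coord i x = 0 := h2 i (by simp)
    refine ⟨hi, fun j => ?_⟩
    by_cases hj : j = i
    · rw [hj, hi]
    · exact h1 j (by simpa using hj)
  · rintro ⟨h1, h2⟩
    refine ⟨fun j _ => h2 j, fun j hj => ?_⟩
    have : j = i := by simpa using hj
    rw [this, h1]

omit [NeZero n] in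
theorem continuous_coord (j : Fin (n + 1)) : Continuous ((affB S).coord j) :=
  ((affB S).coord j).continuous_of_finiteDimensional

theorem mem_relint_facet (x : EuclideanSpace ℝ (Fin n)) :
    x ∈ intrinsicInterior ℝ (convexHull ℝ (range (S.faceOpposite i).points)) ↔
      (affB S).coord i x = 0 ∧ ∀ j, j ≠ i → 0 < (affB S).coord j x := by
  rw [mem_intrinsicInterior]
  constructor
  · rintro ⟨y, hy, rfl⟩
    have hmem : (y : EuclideanSpace ℝ (Fin n)) ∈
        convexHull ℝ (range (S.faceOpposite i).points) := by
      have := interior_subset hy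
      exact this
    rw [mem_hull_facet] at hmem
    refine ⟨hmem.1, fun j hj => ?_⟩
    rcases (hmem.2 j).lt_or_eq with hlt | heq
    · exact hlt
    exfalso
    -- move away from vertex `j`
    have hvj : S.points j ∈ affineSpan ℝ (convexHull ℝ (range (S.faceOpposite i).points)) := by
      rw [affineSpan_convexHull, mem_span_facet]
      exact (affB S).coord_apply_ne (i := i) (j := j) hj.symm
    let γ : ℝ → affineSpan ℝ (convexHull ℝ (range (S.faceOpposite i).points)) := fun t =>
      ⟨AffineMap.lineMap (y : EuclideanSpace ℝ (Fin n)) (S.points j) (-t),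
        AffineMap.lineMap_mem (-t) y.2 hvj⟩
    have hγcoe : ∀ t, ((γ t : _) : EuclideanSpace ℝ (Fin n)) =
        y + (-t) • (S.points j - (y : EuclideanSpace ℝ (Fin n))) := by
      intro t
      simp only [γ, AffineMap.lineMap_apply, vadd_eq_add, vsub_eq_sub]
      rw [add_comm]
    have hγ : Continuous γ := by
      refine Continuous.subtype_mk ?_ _
      have : (fun t : ℝ => (AffineMap.lineMap (y : EuclideanSpace ℝ (Fin n)) (S.points j) (-t) :
          EuclideanSpace ℝ (Fin n))) = fun t : ℝ =>
          (y : EuclideanSpace ℝ (Fin n)) + (-t) • (S.points j - (y : EuclideanSpace ℝ (Fin n))) := by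
        funext t; exact hγcoe t
      rw [this]
      fun_prop
    have hγ0 : γ 0 = y := by simp [γ]
    have hopen : IsOpen (γ ⁻¹' interior (((↑) : affineSpan ℝ
        (convexHull ℝ (range (S.faceOpposite i).points)) → EuclideanSpace ℝ (Fin n)) ⁻¹'
        (convexHull ℝ (range (S.faceOpposite i).points)))) := isOpen_interior.preimage hγ
    have h0 : (0 : ℝ) ∈ γ ⁻¹' interior (((↑) : affineSpan ℝ
        (convexHull ℝ (range (S.faceOpposite i).points)) → EuclideanSpace ℝ (Fin n)) ⁻¹'
        (convexHull ℝ (range (S.faceOpposite i).points))) := by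
      rw [mem_preimage, hγ0]; exact hy
    obtain ⟨ε, hε, hball⟩ := Metric.isOpen_iff.1 hopen 0 h0
    have hin : ε / 2 ∈ Metric.ball (0 : ℝ) ε := by
      rw [Metric.mem_ball, dist_zero_right, Real.norm_eq_abs, abs_of_pos (by positivity)]
      linarith
    have h1 := interior_subset (hball hin)
    rw [mem_preimage, mem_hull_facet] at h1
    have h2 := h1.2 j
    have heq' : (affB S).coord j (y : EuclideanSpace ℝ (Fin n)) = 0 := heq.symm
    rw [hγcoe, coord_add, heq', inner_smul_right, inner_grad] at h2
    have h3 : ((affB S).coord j).linear (S.points j - (y : EuclideanSpace ℝ (Fin n))) = 1 := by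
      have h4 := coord_add S j (y : EuclideanSpace ℝ (Fin n))
        (S.points j - (y : EuclideanSpace ℝ (Fin n)))
      rw [add_sub_cancel, heq', inner_grad] at h4
      have h5 : (affB S).coord j (S.points j) = 1 := (affB S).coord_apply_eq j
      rw [h5] at h4
      linarith
    rw [h3] at h2
    linarith
  · rintro ⟨h1, h2⟩
    have hx : x ∈ affineSpan ℝ (convexHull ℝ (range (S.faceOpposite i).points)) := by
      rw [affineSpan_convexHull, mem_span_facet]
      exact h1
    refine ⟨⟨x, hx⟩, ?_, rfl⟩
    rw [mem_interior]
    refine ⟨{z | ∀ j ∈ ({i}ᶜ : Set (Fin (n + 1))), 0 < (affB S).coord j z}, ?_, ?_, ?_⟩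
    · intro z hz
      rw [mem_preimage, mem_hull_facet]
      have hz0 : (affB S).coord i (z : EuclideanSpace ℝ (Fin n)) = 0 := by
        have h3 : (z : EuclideanSpace ℝ (Fin n)) ∈
            affineSpan ℝ (range (S.faceOpposite i).points) := by
          rw [← affineSpan_convexHull]
          exact z.2
        rwa [mem_span_facet] at h3
      refine ⟨hz0, fun j => ?_⟩
      by_cases hj : j = i
      · rw [hj, hz0]
      · exact (hz j (by simpa using hj)).le
    · rw [show {z : affineSpan ℝ (convexHull ℝ (range (S.faceOpposite i).points)) |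
          ∀ j ∈ ({i}ᶜ : Set (Fin (n + 1))), 0 < (affB S).coord j z} =
          ⋂ j ∈ ({i}ᶜ : Set (Fin (n + 1))),
            {z : affineSpan ℝ (convexHull ℝ (range (S.faceOpposite i).points)) |
              0 < (affB S).coord j z} by ext z; simp]
      refine (Set.toFinite _).isOpen_biInter fun j _ => ?_
      exact isOpen_lt continuous_const ((continuous_coord S j).comp continuous_subtype_val)
    · intro j hj
      exact h2 j (by simpa using hj)

/-- A facet is stable iff its gradient is longer than the component of every other gradient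
in its direction. -/
theorem facetStable_iff : FacetStable S i ↔ ∀ j, j ≠ i → ⟪grad S i, grad S j⟫ <
    ⟪grad S i, grad S i⟫ := by
  have hpos : 0 < ⟪grad S i, grad S i⟫ := by
    have := grad_ne_zero S i
    exact real_inner_self_pos.2 this
  have hn : (0 : ℝ) < (n : ℝ) + 1 := by positivity
  set c : ℝ := ((n : ℝ) + 1)⁻¹ / ⟪grad S i, grad S i⟫ with hc
  have hproj : ((S.faceOpposite i).orthogonalProjectionSpan S.centroid :
      EuclideanSpace ℝ (Fin n)) = S.centroid + (-c) • grad S i := by
    rw [Affine.Simplex.orthogonalProjectionSpan,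
      EuclideanGeometry.coe_orthogonalProjection_eq_iff_mem]
    constructor
    · rw [mem_span_facet, coord_add, coord_centroid, inner_smul_right, hc]
      field_simp
      ring
    · rw [vsub_eq_sub, sub_add_cancel_left, neg_smul, neg_neg, Submodule.mem_orthogonal']
      intro u hu
      rw [inner_smul_left]
      have hu' : ⟪grad S i, u⟫ = 0 := by
        rw [inner_grad]
        rw [direction_affineSpan, vectorSpan_def] at hu
        refine Submodule.span_induction ?_ ?_ ?_ ?_ hu
        · rintro _ ⟨p, hp, q, hq, rfl⟩
          have hp' : p ∈ affineSpan ℝ (range (S.faceOpposite i).points) :=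
            subset_affineSpan ℝ _ hp
          have hq' : q ∈ affineSpan ℝ (range (S.faceOpposite i).points) :=
            subset_affineSpan ℝ _ hq
          rw [mem_span_facet] at hp' hq'
          show ((affB S).coord i).linear (p -ᵥ q) = 0
          rw [AffineMap.linearMap_vsub, hp', hq']
          simp
        · simp
        · intro a b _ _ ha hb
          rw [map_add, ha, hb, add_zero]
        · intro r a _ ha
          rw [map_smul, ha, smul_zero]
      rw [hu', mul_zero]
  have hcoord : ∀ j, (affB S).coord j (S.centroid + (-c) • grad S i) =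
      ((n : ℝ) + 1)⁻¹ * (1 - ⟪grad S i, grad S j⟫ / ⟪grad S i, grad S i⟫) := by
    intro j
    rw [coord_add, coord_centroid, inner_smul_right, real_inner_comm (grad S i) (grad S j), hc]
    ring
  rw [FacetStable, foot, facet, hproj, mem_relint_facet]
  simp only [hcoord]
  constructor
  · rintro ⟨_, h⟩ j hj
    have h1 := h j hj
    have h2 : 0 < 1 - ⟪grad S i, grad S j⟫ / ⟪grad S i, grad S i⟫ := by
      by_contra hcon
      push Not at hcon
      have : ((n : ℝ) + 1)⁻¹ * (1 - ⟪grad S i, grad S j⟫ / ⟪grad S i, grad S i⟫) ≤ 0 :=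
        mul_nonpos_of_nonneg_of_nonpos (by positivity) hcon
      linarith
    rw [sub_pos, div_lt_one hpos] at h2
    exact h2
  · intro h
    refine ⟨?_, fun j hj => ?_⟩
    · rw [div_self hpos.ne']; ring
    · refine mul_pos (by positivity) ?_
      rw [sub_pos, div_lt_one hpos]
      exact h j hj

end facet

end Pool.Agent.Helper82.Mono
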