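import Pool.Agent.Helper82.MonoGeom
import Pool.Agent.Helper82.MonoFall

/-!
Non-existence of monostatic simplices in dimension at most nine, existence from dimension ten on.
-/

namespace Pool.Agent.Helper82.Mono

open scoped RealInnerProductSpace
open Set

variable {n : ℕ}

theorem grad_ne [NeZero n] (S : Affine.Simplex ℝ (EuclideanSpace ℝ (Fin n)) n)
    {i j : Fin (n + 1)} (hij : i ≠ j) : grad S i ≠ grad S j := by
  intro h
  have h1 := coord_add S i (S.points j) (S.points i - S.points j)
  have h2 := coord_add S j (S.points j) (S.points i - S.points j)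
  rw [add_sub_cancel] at h1 h2
  have a1 : (affB S).coord i (S.points i) = 1 := (affB S).coord_apply_eq i
  have a2 : (affB S).coord i (S.points j) = 0 := (affB S).coord_apply_ne hij
  have a3 : (affB S).coord j (S.points i) = 0 := (affB S).coord_apply_ne hij.symm
  have a4 : (affB S).coord j (S.points j) = 1 := (affB S).coord_apply_eq j
  rw [a1, a2, h] at h1
  rw [a3, a4] at h2
  linarith

theorem norm_lt_of_falls {E : Type} [NormedAddCommGroup E] [InnerProductSpace ℝ E] {x y : E}
    (h : ⟪x, x⟫ ≤ ⟪x, y⟫) (hne : x ≠ y) : ‖x‖ < ‖y‖ := by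
  by_contra hcon
  push Not at hcon
  have h1 : ⟪x - y, x - y⟫ = ⟪x, x⟫ - 2 * ⟪x, y⟫ + ⟪y, y⟫ := by
    rw [inner_sub_left, inner_sub_right, inner_sub_right, real_inner_comm x y]
    ring
  have h2 : ⟪y, y⟫ ≤ ⟪x, x⟫ := by
    rw [real_inner_self_eq_norm_sq, real_inner_self_eq_norm_sq]
    exact pow_le_pow_left₀ (norm_nonneg _) hcon 2
  have h3 : ⟪x - y, x - y⟫ ≤ 0 := by linarith
  have h4 : 0 ≤ ⟪x - y, x - y⟫ := real_inner_self_nonneg
  have h5 : x - y = 0 := inner_self_eq_zero.1 (le_antisymm h3 h4)
  exact hne (sub_eq_zero.1 h5)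

theorem not_monostatic [NeZero n] (hn : n ≤ 9)
    (S : Affine.Simplex ℝ (EuclideanSpace ℝ (Fin n)) n) : ¬ Monostatic S := by
  rintro ⟨i₀, _, huniq⟩
  refine grad_ne_zero S i₀ (no_falling (grad S) i₀ (Finset.univ.erase i₀) ?_ ?_ ?_)
  · rw [Finset.card_erase_of_mem (Finset.mem_univ _), Finset.card_univ, Fintype.card_fin]
    omega
  · intro i hi
    have hi' : i ≠ i₀ := (Finset.mem_erase.1 hi).1
    have hns : ¬ FacetStable S i := fun h => hi' (huniq i h)
    rw [facetStable_iff] at hns
    push Not at hns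
    obtain ⟨j, hj, hle⟩ := hns
    refine ⟨j, ?_, norm_lt_of_falls hle (grad_ne S hj.symm), hle⟩
    rw [Finset.insert_erase (Finset.mem_univ _)]
    exact Finset.mem_univ _
  · rw [Finset.add_sum_erase _ _ (Finset.mem_univ _)]
    exact sum_grad S

/-- vectors with zero sum, all but the first linearly independent, are the gradients of the
barycentric coordinates of some simplex -/
theorem exists_simplex (w : Fin (n + 1) → EuclideanSpace ℝ (Fin n)) (hsum : ∑ i, w i = 0)
    (hli : LinearIndependent ℝ (fun i : Fin n => w i.succ)) :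
    ∃ S : Affine.Simplex ℝ (EuclideanSpace ℝ (Fin n)) n, ∀ i, grad S i = w i := by
  -- the dual system
  let L : EuclideanSpace ℝ (Fin n) →ₗ[ℝ] (Fin n → ℝ) :=
    LinearMap.pi fun i => (innerₛₗ ℝ (w i.succ))
  have hL : ∀ x i, L x i = ⟪w i.succ, x⟫ := fun x i => rfl
  have hinj : Function.Injective L := by
    rw [injective_iff_map_eq_zero]
    intro x hx
    have hspan : Submodule.span ℝ (Set.range fun i : Fin n => w i.succ) = ⊤ :=
      hli.span_eq_top_of_card_eq_finrank' (by simp)
    have hx' : x ∈ (Submodule.span ℝ (Set.range fun i : Fin n => w i.succ))ᗮ := by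
      rw [Submodule.mem_orthogonal]
      intro u hu
      refine Submodule.span_induction ?_ ?_ ?_ ?_ hu
      · rintro _ ⟨i, rfl⟩
        rw [← hL, hx]; rfl
      · simp
      · intro a b _ _ ha hb
        rw [inner_add_left, ha, hb, add_zero]
      · intro r a _ ha
        rw [inner_smul_left, ha, mul_zero]
    rw [hspan, Submodule.top_orthogonal_eq_bot, Submodule.mem_bot] at hx'
    exact hx'
  have hsurj : Function.Surjective L :=
    (LinearMap.injective_iff_surjective_of_finrank_eq_finrank (by simp)).1 hinj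
  choose v hv using fun j : Fin n => hsurj (Pi.single j 1)
  have hdual : ∀ i j : Fin n, ⟪w i.succ, v j⟫ = if i = j then 1 else 0 := by
    intro i j
    rw [← hL, hv, Pi.single_apply]
  let p : Fin (n + 1) → EuclideanSpace ℝ (Fin n) := Fin.cons 0 v
  have hw0 : w 0 = - ∑ i : Fin n, w i.succ := by
    rw [Fin.sum_univ_succ] at hsum
    exact eq_neg_of_add_eq_zero_left hsum
  have hp : ∀ i j : Fin (n + 1), ⟪w i, p j⟫ =
      (if i = j then 1 else 0) - (if i = 0 then 1 else 0) := by
    intro i j
    refine Fin.cases ?_ ?_ j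
    · show ⟪w i, (0 : EuclideanSpace ℝ (Fin n))⟫ = _
      simp
    · intro j
      show ⟪w i, v j⟫ = _
      refine Fin.cases ?_ ?_ i
      · rw [hw0, inner_neg_left, sum_inner]
        simp [hdual, (Fin.succ_ne_zero j).symm]
      · intro i
        rw [hdual]
        simp [Fin.succ_ne_zero i]
  have hind : AffineIndependent ℝ p := by
    rw [affineIndependent_iff]
    intro s c hc hcp i hi
    have h1 : ⟪w i, ∑ e ∈ s, c e • p e⟫ = 0 := by rw [hcp, inner_zero_right]
    rw [inner_sum] at h1
    simp only [inner_smul_right, hp, mul_sub, Finset.sum_sub_distrib] at h1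
    rw [← Finset.sum_mul, hc, zero_mul, sub_zero] at h1
    simpa [hi] using h1
  let S : Affine.Simplex ℝ (EuclideanSpace ℝ (Fin n)) n := ⟨p, hind⟩
  refine ⟨S, fun i => ?_⟩
  have hcoord : ∀ x, (affB S).coord i x = ⟪w i, x⟫ + (if i = 0 then 1 else 0) := by
    intro x
    have h1 := (affB S).linear_combination_coord_eq_self x
    have h2 := (affB S).sum_coord_apply_eq_one x
    have h3 : ⟪w i, x⟫ = ∑ j, (affB S).coord j x * ⟪w i, p j⟫ := by
      conv_lhs => rw [← h1]
      rw [inner_sum]
      refine Finset.sum_congr rfl fun j _ => ?_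
      rw [inner_smul_right]
      rfl
    rw [h3]
    simp only [hp, mul_sub, Finset.sum_sub_distrib]
    rw [← Finset.sum_mul, h2, one_mul]
    simp
  refine ext_inner_right ℝ fun x => ?_
  have h4 := coord_add S i 0 x
  rw [zero_add, hcoord, hcoord] at h4
  simp only [inner_zero_right, zero_add] at h4
  linarith

end Pool.Agent.Helper82.Mono
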