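import Mathlib

/-!
Falling patterns of simplices: ordered forests, vector-labelled forests, and the certificate
checker for the non-existence part of the monostatic simplex problem.
-/

namespace Pool.Agent.Helper82.Mono

open scoped RealInnerProductSpace

/-- Ordered forests: `cons c r` is the forest whose first tree has children forest `c`,
followed by the forest `r`. -/
inductive Shape : Type
  | nil : Shape
  | cons : Shape → Shape → Shape

namespace Shape

/-- number of nodes -/
def size : Shape → ℕ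
  | nil => 0
  | cons c r => c.size + r.size + 1

/-- the balanced parenthesis word of a forest read as a binary number -/
def code : Shape → ℕ
  | nil => 0
  | cons c r => (2 ^ (2 * c.size) + c.code) * 2 * 2 ^ (2 * r.size) + r.code

/-- code of the first tree (zero if there is none) -/
def hd : Shape → ℕ
  | nil => 0
  | cons c _ => c.code

/-- the trees are listed in non-increasing order of code, recursively -/
def sorted : Shape → Bool
  | nil => true
  | cons c r => sorted c && sorted r && Nat.ble (hd r) (code c)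

/-- all sorted forests with `k` nodes (needs `fuel > k`) -/
def gen : ℕ → ℕ → List Shape
  | 0, _ => []
  | _ + 1, 0 => [nil]
  | f + 1, k + 1 => (List.range (k + 1)).flatMap fun i =>
      (gen f i).flatMap fun c =>
        ((gen f (k - i)).filter fun r => Nat.ble (hd r) (code c)).map fun r => cons c r

theorem mem_gen : ∀ (f : ℕ) (s : Shape), s.size < f → s.sorted = true → s ∈ gen f s.size := by
  intro f
  induction f with
  | zero => intro s h; omega
  | succ f ih =>
    intro s h hs
    cases s with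
    | nil => simp [size, gen]
    | cons c r =>
      simp only [sorted, Bool.and_eq_true] at hs
      obtain ⟨⟨hc, hr⟩, hle⟩ := hs
      simp only [size] at h
      have h1 := ih c (by omega) hc
      have h2 := ih r (by omega) hr
      simp only [size, gen, List.mem_flatMap, List.mem_range, List.mem_map, List.mem_filter]
      refine ⟨c.size, by omega, c, h1, r, ⟨?_, hle⟩, rfl⟩
      have : c.size + r.size - c.size = r.size := by omega
      rw [this]
      exact h2

end Shape

/-- forests with a natural number weight at every node -/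
inductive LF : Type
  | nil : LF
  | cons : ℕ → LF → LF → LF

namespace LF

/-- forget the weights -/
def shape : LF → Shape
  | nil => .nil
  | cons _ c r => .cons c.shape r.shape

end LF

/-- apply `k` to `n`, evaluating the number `n` first -/
def seqN {α : Type} (n : ℕ) (k : ℕ → α) : α :=
  match n with
  | 0 => k 0
  | Nat.succ m => k (Nat.succ m)

@[simp] theorem seqN_eq {α : Type} (n : ℕ) (k : ℕ → α) : seqN n k = k n := by
  cases n <;> rfl

/-- attach to the nodes of a forest, in preorder, the base-256 digits of a number -/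
def label : Shape → ℕ → LF × ℕ
  | .nil, m => (.nil, m)
  | .cons c r, m =>
    seqN (m / 256) fun m' =>
    match label c m' with
    | (c', m1) =>
      match label r m1 with
      | (r', m2) => (.cons (m % 256) c' r', m2)

theorem shape_label : ∀ (s : Shape) (m : ℕ), (label s m).1.shape = s := by
  intro s
  induction s with
  | nil => intro m; rfl
  | cons c r ihc ihr =>
    intro m
    simp only [label, LF.shape, seqN_eq]
    rw [ihc, ihr]

/-- a quadratic form `(-a |y|^2 - b <y,s> + (p - n) |s|^2) / d` in two vectors `y`, `s` -/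
structure QF where
  (a b p n d : ℕ)

/-- value of a tree with root weight `l` from the value of its children forest -/
def treeQ (l : ℕ) : Option QF → Option QF
  | none => some ⟨0, l, l, 0, 1⟩
  | some ⟨a, b, p, n, d⟩ =>
    if Nat.blt (n + a) (l * d + b + p) && Nat.ble (2 * n) (b + 2 * p) then
      seqN (l * d + b + p - (a + n)) fun P =>
      seqN (b + 2 * p - 2 * n) fun e =>
      seqN (4 * P * p) fun x =>
      seqN (4 * P * n + e * e) fun y =>
      seqN (l * l * d * d) fun a' =>
      seqN (2 * l * e * d) fun b' =>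
      seqN (x - y) fun p' =>
      seqN (y - x) fun n' =>
      seqN (4 * P * d) fun d' =>
      some ⟨a', b', p', n', d'⟩
    else none

/-- value of a tree followed by a forest -/
def combQ : QF → Option QF → Option QF
  | t, none => some t
  | ⟨a₁, b₁, p₁, n₁, d₁⟩, some ⟨a₂, b₂, p₂, n₂, d₂⟩ =>
    if Nat.blt (n₁ * d₂ + n₂ * d₁) (p₁ * d₂ + p₂ * d₁) &&
        Nat.ble (n₁ * b₂ + n₂ * b₁) (p₁ * b₂ + p₂ * b₁) then
      seqN ((p₁ * d₂ + p₂ * d₁) - (n₁ * d₂ + n₂ * d₁)) fun K =>
      seqN ((b₁ * d₂ - b₂ * d₁) + (b₂ * d₁ - b₁ * d₂)) fun x =>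
      seqN (4 * d₁ * d₂) fun w =>
      seqN (p₁ * p₂ + n₁ * n₂) fun u =>
      seqN (p₁ * n₂ + n₁ * p₂) fun v =>
      seqN (4 * K * (a₁ * d₂ + a₂ * d₁) + x * x) fun a' =>
      seqN (w * ((p₁ * b₂ + p₂ * b₁) - (n₁ * b₂ + n₂ * b₁))) fun b' =>
      seqN (w * (u - v)) fun p' =>
      seqN (w * (v - u)) fun n' =>
      seqN (w * K) fun d' =>
      some ⟨a', b', p', n', d'⟩
    else none

/-- value of a weighted forest; the outer option signals failure,
the inner one the empty forest -/
def val : LF → Option (Option QF)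
  | .nil => some none
  | .cons l c r =>
    match val c with
    | none => none
    | some vc =>
      match treeQ l vc with
      | none => none
      | some t =>
        match val r with
        | none => none
        | some vr =>
          match combQ t vr with
          | none => none
          | some q => some (some q)

/-- the certificate check -/
def checkLF (f : LF) : Bool :=
  match val f with
  | some (some ⟨a, b, p, n, _⟩) => Nat.blt (a + n) (b + p)
  | _ => false

/-- check a list of shapes against a list of encoded weights -/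
def checkAll : List Shape → List ℕ → Bool
  | [], _ => true
  | _ :: _, [] => false
  | s :: ss, m :: ms => checkLF (label s m).1 && checkAll ss ms

theorem checkAll_spec : ∀ (ss : List Shape) (ms : List ℕ), checkAll ss ms = true →
    ∀ s ∈ ss, ∃ f : LF, f.shape = s ∧ checkLF f = true := by
  intro ss
  induction ss with
  | nil => intro ms _ s hs; simp at hs
  | cons s ss ih =>
    intro ms h t ht
    cases ms with
    | nil => simp [checkAll] at h
    | cons m ms =>
      simp only [checkAll, Bool.and_eq_true] at h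
      rcases List.mem_cons.1 ht with rfl | ht
      · exact ⟨(label t m).1, shape_label t m, h.1⟩
      · exact ih ms h.2 t ht

/-- forests with a vector at every node -/
inductive VF (E : Type) : Type
  | nil : VF E
  | cons : E → VF E → VF E → VF E

namespace VF

variable {E : Type}

/-- forget the vectors -/
def shape : VF E → Shape
  | nil => .nil
  | cons _ c r => .cons c.shape r.shape

/-- the multiset of all vectors -/
def toMultiset : VF E → Multiset E
  | nil => 0
  | cons x c r => x ::ₘ (c.toMultiset + r.toMultiset)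

theorem card_toMultiset : ∀ f : VF E, f.toMultiset.card = f.shape.size := by
  intro f
  induction f with
  | nil => rfl
  | cons x c r ihc ihr => simp [toMultiset, shape, Shape.size, ihc, ihr]

variable [NormedAddCommGroup E] [InnerProductSpace ℝ E]

/-- every vector falls onto its parent; roots fall onto `y` -/
def falls : E → VF E → Prop
  | _, nil => True
  | y, cons x c r => ⟪x, x⟫ ≤ ⟪x, y⟫ ∧ falls x c ∧ falls y r

/-- the sum of all vectors -/
def sum : VF E → E
  | nil => 0
  | cons x c r => x + c.sum + r.sum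

omit [InnerProductSpace ℝ E] in
theorem sum_toMultiset : ∀ f : VF E, f.toMultiset.sum = f.sum := by
  intro f
  induction f with
  | nil => rfl
  | cons x c r ihc ihr => simp [toMultiset, sum, ihc, ihr, add_assoc]

end VF

variable {E : Type} [NormedAddCommGroup E] [InnerProductSpace ℝ E]

/-- weighted total of the quantities `|x|^2 - <x, parent>` -/
noncomputable def cost : LF → VF E → E → ℝ
  | .cons l c r, .cons x c' r', y => (l : ℝ) * (⟪x, x⟫ - ⟪x, y⟫) + cost c c' x + cost r r' y
  | _, _, _ => 0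

theorem cost_nonpos : ∀ (f : LF) (v : VF E) (y : E), v.falls y → cost f v y ≤ 0 := by
  intro f
  induction f with
  | nil => intro v y _; simp [cost]
  | cons l c r ihc ihr =>
    intro v y h
    cases v with
    | nil => simp [cost]
    | cons x c' r' =>
      obtain ⟨h1, h2, h3⟩ := h
      have a := ihc c' x h2
      have b := ihr r' y h3
      have hl : (0 : ℝ) ≤ l := Nat.cast_nonneg l
      have : (l : ℝ) * (⟪x, x⟫ - ⟪x, y⟫) ≤ 0 :=
        mul_nonpos_of_nonneg_of_nonpos hl (by linarith)
      simp only [cost]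
      linarith

/-- the meaning of a value `q` for a forest with parent `y`, vector sum `s` and cost `k` -/
def Bound (q : QF) (y s : E) (k : ℝ) : Prop :=
  0 < q.d ∧ -(q.a : ℝ) * ⟪y, y⟫ - q.b * ⟪y, s⟫ + ((q.p : ℝ) - q.n) * ⟪s, s⟫ ≤ k * q.d

theorem expand3 (x y s : E) (a b c : ℝ) :
    ⟪a • x + b • y + c • s, a • x + b • y + c • s⟫ =
      a ^ 2 * ⟪x, x⟫ + b ^ 2 * ⟪y, y⟫ + c ^ 2 * ⟪s, s⟫ + 2 * a * b * ⟪x, y⟫
        + 2 * a * c * ⟪x, s⟫ + 2 * b * c * ⟪y, s⟫ := by
  simp only [inner_add_left, inner_add_right, inner_smul_left, inner_smul_right, conj_trivial]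
  rw [real_inner_comm x y, real_inner_comm x s, real_inner_comm y s]
  ring

theorem sub_sub_cast (x y : ℕ) : ((x - y : ℕ) : ℝ) - ((y - x : ℕ) : ℝ) = (x : ℝ) - y := by
  rcases le_total x y with h | h
  · rw [Nat.sub_eq_zero_of_le h, Nat.cast_sub h]; push_cast; ring
  · rw [Nat.sub_eq_zero_of_le h, Nat.cast_sub h]; push_cast; ring

theorem abs_sq_cast (x y : ℕ) :
    ((((x - y) + (y - x) : ℕ) : ℝ)) * (((x - y) + (y - x) : ℕ) : ℝ) = ((x : ℝ) - y) ^ 2 := by
  rcases le_total x y with h | h
  · rw [Nat.sub_eq_zero_of_le h, Nat.cast_add, Nat.cast_sub h]; push_cast; ring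
  · rw [Nat.sub_eq_zero_of_le h, Nat.cast_add, Nat.cast_sub h]; push_cast; ring

theorem bound_leaf (l : ℕ) (x y : E) :
    Bound ⟨0, l, l, 0, 1⟩ y x (l * (⟪x, x⟫ - ⟪x, y⟫)) := by
  refine ⟨by norm_num, ?_⟩
  rw [real_inner_comm x y]
  push_cast
  linarith

theorem bound_treeQ (l : ℕ) (q : QF) (t : QF) (x y s : E) (k : ℝ)
    (hq : Bound q x s k) (ht : treeQ l (some q) = some t) :
    Bound t y (x + s) (l * (⟪x, x⟫ - ⟪x, y⟫) + k) := by
  obtain ⟨a, b, p, n, d⟩ := q
  obtain ⟨hd, hb⟩ := hq
  simp only [treeQ, seqN_eq] at ht hd hb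
  split_ifs at ht with hp
  simp only [Bool.and_eq_true, Nat.blt_eq, Nat.ble_eq] at hp
  obtain ⟨hp1, hp2⟩ := hp
  have ht' := (Option.some.inj ht).symm
  subst ht'
  have hP : ((l * d + b + p - (a + n) : ℕ) : ℝ) = (l : ℝ) * d + b + p - a - n := by
    rw [Nat.cast_sub (by omega)]; push_cast; ring
  have he : ((b + 2 * p - 2 * n : ℕ) : ℝ) = (b : ℝ) + 2 * p - 2 * n := by
    rw [Nat.cast_sub hp2]; push_cast; ring
  have hPpos : 0 < l * d + b + p - (a + n) := by omega
  have hPposR : (0 : ℝ) < ((l * d + b + p - (a + n) : ℕ) : ℝ) := by exact_mod_cast hPpos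
  generalize hPP : l * d + b + p - (a + n) = P at *
  generalize hee : b + 2 * p - 2 * n = e at *
  refine ⟨by positivity, ?_⟩
  simp only
  rw [sub_sub_cast]
  push_cast
  have key := real_inner_self_nonneg (x := (2 * (P : ℝ) - e) • x + (-((l : ℝ) * d)) • y
    + (-(e : ℝ)) • s)
  rw [expand3] at key
  have h1 := mul_le_mul_of_nonneg_left hb (by positivity : (0 : ℝ) ≤ 4 * (P : ℝ))
  simp only [inner_add_left, inner_add_right]
  rw [real_inner_comm x y, real_inner_comm x s]
  rw [he] at key ⊢
  rw [hP] at key h1 ⊢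
  nlinarith [key, h1]

theorem comb_identity (a₁ b₁ p₁ n₁ d₁ a₂ b₂ p₂ n₂ d₂ K yy ys ys' ss st tt k k' : ℝ)
    (hK : K = (p₁ * d₂ + p₂ * d₁) - (n₁ * d₂ + n₂ * d₁)) :
    (k + k') * (4 * d₁ * d₂ * K) -
      (-(4 * K * (a₁ * d₂ + a₂ * d₁) + (b₁ * d₂ - b₂ * d₁) ^ 2) * yy -
        4 * d₁ * d₂ * ((p₁ * b₂ + p₂ * b₁) - (n₁ * b₂ + n₂ * b₁)) * (ys + ys') +
        4 * d₁ * d₂ * (p₁ * p₂ + n₁ * n₂ - (p₁ * n₂ + n₁ * p₂)) * (ss + st + (st + tt)))
      = (4 * K * d₂ * (k * d₁) - 4 * K * d₂ * (-a₁ * yy - b₁ * ys + (p₁ - n₁) * ss))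
      + (4 * K * d₁ * (k' * d₂) - 4 * K * d₁ * (-a₂ * yy - b₂ * ys' + (p₂ - n₂) * tt))
      + ((2 * K - 2 * (p₂ - n₂) * d₁) ^ 2 * ss + (-(b₁ * d₂ - b₂ * d₁)) ^ 2 * yy
        + (-(2 * (p₂ - n₂) * d₁)) ^ 2 * tt
        + 2 * (2 * K - 2 * (p₂ - n₂) * d₁) * (-(b₁ * d₂ - b₂ * d₁)) * ys
        + 2 * (2 * K - 2 * (p₂ - n₂) * d₁) * (-(2 * (p₂ - n₂) * d₁)) * st
        + 2 * (-(b₁ * d₂ - b₂ * d₁)) * (-(2 * (p₂ - n₂) * d₁)) * ys') := by
  subst hK
  ring

theorem bound_combQ (t r q : QF) (y s s' : E) (k k' : ℝ)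
    (ht : Bound t y s k) (hr : Bound r y s' k') (hq : combQ t (some r) = some q) :
    Bound q y (s + s') (k + k') := by
  obtain ⟨a₁, b₁, p₁, n₁, d₁⟩ := t
  obtain ⟨a₂, b₂, p₂, n₂, d₂⟩ := r
  obtain ⟨hd, hb⟩ := ht
  obtain ⟨hd', hb'⟩ := hr
  simp only [combQ, seqN_eq] at hq hd hb hd' hb'
  split_ifs at hq with hp
  simp only [Bool.and_eq_true, Nat.blt_eq, Nat.ble_eq] at hp
  obtain ⟨hp1, hp2⟩ := hp
  have hq' := (Option.some.inj hq).symm
  subst hq'
  have hK : (((p₁ * d₂ + p₂ * d₁) - (n₁ * d₂ + n₂ * d₁) : ℕ) : ℝ) =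
      ((p₁ : ℝ) * d₂ + p₂ * d₁) - (n₁ * d₂ + n₂ * d₁) := by
    rw [Nat.cast_sub hp1.le]; push_cast; ring
  have hB : (((p₁ * b₂ + p₂ * b₁) - (n₁ * b₂ + n₂ * b₁) : ℕ) : ℝ) =
      ((p₁ : ℝ) * b₂ + p₂ * b₁) - (n₁ * b₂ + n₂ * b₁) := by
    rw [Nat.cast_sub hp2]; push_cast; ring
  have hKpos : 0 < (p₁ * d₂ + p₂ * d₁) - (n₁ * d₂ + n₂ * d₁) := by omega
  have hX := abs_sq_cast (b₁ * d₂) (b₂ * d₁)
  have hU := sub_sub_cast (p₁ * p₂ + n₁ * n₂) (p₁ * n₂ + n₁ * p₂)
  generalize hKK : (p₁ * d₂ + p₂ * d₁) - (n₁ * d₂ + n₂ * d₁) = K at *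
  generalize hBB : (p₁ * b₂ + p₂ * b₁) - (n₁ * b₂ + n₂ * b₁) = B at *
  generalize hXX : (b₁ * d₂ - b₂ * d₁) + (b₂ * d₁ - b₁ * d₂) = X at *
  generalize hUU : (p₁ * p₂ + n₁ * n₂) - (p₁ * n₂ + n₁ * p₂) = U at *
  generalize hVV : (p₁ * n₂ + n₁ * p₂) - (p₁ * p₂ + n₁ * n₂) = V at *
  refine ⟨by positivity, ?_⟩
  simp only
  push_cast
  push_cast at hX hU
  have hdR : (0 : ℝ) < d₁ := by exact_mod_cast hd
  have hdR' : (0 : ℝ) < d₂ := by exact_mod_cast hd'
  have hKR : (0 : ℝ) < K := by exact_mod_cast hKpos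
  have key := real_inner_self_nonneg (x := (2 * (K : ℝ) - 2 * ((p₂ : ℝ) - n₂) * d₁) • s
    + (-((b₁ : ℝ) * d₂ - b₂ * d₁)) • y + (-(2 * ((p₂ : ℝ) - n₂) * d₁)) • s')
  rw [expand3] at key
  have h1 := mul_le_mul_of_nonneg_left hb (by positivity : (0 : ℝ) ≤ 4 * (K : ℝ) * d₂)
  have h2 := mul_le_mul_of_nonneg_left hb' (by positivity : (0 : ℝ) ≤ 4 * (K : ℝ) * d₁)
  have hUV : (4 * (d₁ : ℝ) * d₂ * U - 4 * d₁ * d₂ * V) =
      4 * d₁ * d₂ * (p₁ * p₂ + n₁ * n₂ - (p₁ * n₂ + n₁ * p₂)) := by
    rw [← hU]; ring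
  rw [hUV]
  have hXe : 4 * (K : ℝ) * (a₁ * d₂ + a₂ * d₁) + X * X =
    4 * (K : ℝ) * (a₁ * d₂ + a₂ * d₁) + ((b₁ : ℝ) * d₂ - b₂ * d₁) ^ 2 := by rw [hX]
  rw [hXe]
  simp only [inner_add_left, inner_add_right]
  rw [real_inner_comm y s] at key
  rw [real_inner_comm s s', hB]
  clear hXe hUV hUU hVV hXX hBB hKK hB hX hU hb hb'
  generalize ⟪y, y⟫ = yy at *
  generalize ⟪y, s⟫ = ys at *
  generalize ⟪y, s'⟫ = ys' at *
  generalize ⟪s, s⟫ = ss at *
  generalize ⟪s, s'⟫ = st at *
  generalize ⟪s', s'⟫ = tt at *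
  have hid := comb_identity (a₁ : ℝ) b₁ p₁ n₁ d₁ a₂ b₂ p₂ n₂ d₂ K yy ys ys' ss st tt k k' hK
  linarith

theorem val_sound : ∀ (f : LF) (v : VF E) (y : E), f.shape = v.shape →
    ∀ o, val f = some o →
      match o with
      | none => v = .nil ∧ cost f v y = 0
      | some q => Bound q y v.sum (cost f v y) := by
  intro f
  induction f with
  | nil =>
    intro v y hs o ho
    simp only [val, Option.some.injEq] at ho
    subst ho
    cases v with
    | nil => simp [cost]
    | cons x c r => simp [LF.shape, VF.shape] at hs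
  | cons l c r ihc ihr =>
    intro v y hs o ho
    cases v with
    | nil => simp [LF.shape, VF.shape] at hs
    | cons x c' r' =>
      simp only [LF.shape, VF.shape, Shape.cons.injEq] at hs
      obtain ⟨hc, hr⟩ := hs
      simp only [val] at ho
      rcases hvc : val c with _ | vc
      · simp [hvc] at ho
      simp only [hvc] at ho
      rcases hT : treeQ l vc with _ | t
      · simp [hT] at ho
      simp only [hT] at ho
      rcases hvr : val r with _ | vr
      · simp [hvr] at ho
      simp only [hvr] at ho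
      rcases hC : combQ t vr with _ | q
      · simp [hC] at ho
      simp only [hC, Option.some.injEq] at ho
      subst ho
      have h1 := ihc c' x hc vc hvc
      have h2 := ihr r' y hr vr hvr
      -- the tree
      have h3 : Bound t y (x + c'.sum) ((l : ℝ) * (⟪x, x⟫ - ⟪x, y⟫) + cost c c' x) := by
        cases vc with
        | none =>
          simp only at h1
          simp only [treeQ, Option.some.injEq] at hT
          subst hT
          obtain ⟨h1a, h1b⟩ := h1
          subst h1a
          rw [h1b]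
          simpa [VF.sum] using bound_leaf l x y
        | some qc =>
          simp only at h1
          exact bound_treeQ l qc t x y c'.sum (cost c c' x) h1 hT
      show Bound q y (x + c'.sum + r'.sum) ((l : ℝ) * (⟪x, x⟫ - ⟪x, y⟫) + cost c c' x
        + cost r r' y)
      cases vr with
      | none =>
        simp only at h2
        simp only [combQ, Option.some.injEq] at hC
        subst hC
        obtain ⟨h2a, h2b⟩ := h2
        subst h2a
        rw [h2b]
        simpa [VF.sum] using h3
      | some qr =>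
        simp only at h2
        exact bound_combQ t qr q y (x + c'.sum) r'.sum _ _ h3 h2 hC

/-- a checked certificate excludes every configuration of its shape -/
theorem checkLF_sound (f : LF) (v : VF E) (y : E) (hs : f.shape = v.shape)
    (hf : checkLF f = true) (hfalls : v.falls y) (hsum : y + v.sum = 0) : y = 0 := by
  have hv : v.sum = -y := by
    rw [add_comm] at hsum
    exact eq_neg_of_add_eq_zero_left hsum
  unfold checkLF at hf
  split at hf
  · rename_i a b p n d hq
    have hb := val_sound f v y hs _ hq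
    simp only at hb
    obtain ⟨hd, hb⟩ := hb
    simp only at hd hb
    have hpos : a + n < b + p := by simpa using hf
    have hposR : (a : ℝ) + n < b + p := by exact_mod_cast hpos
    have hc := cost_nonpos f v y hfalls
    have hdR : (0 : ℝ) < d := by exact_mod_cast hd
    rw [hv] at hb
    simp only [inner_neg_right, inner_neg_left] at hb
    have h0 : ⟪y, y⟫ = (0 : ℝ) := by
      have hn : (0 : ℝ) ≤ ⟪y, y⟫ := real_inner_self_nonneg
      have : cost f v y * d ≤ 0 := mul_nonpos_of_nonpos_of_nonneg hc hdR.le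
      by_contra hne
      have hgt : (0 : ℝ) < ⟪y, y⟫ := lt_of_le_of_ne hn (Ne.symm hne)
      nlinarith
    exact inner_self_eq_zero.1 h0
  · simp at hf

end Pool.Agent.Helper82.Mono
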